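import Pool.Agent.H42G.Gam

/-!
# Concatenation of paths: out of a component, along a cycle, into a component
-/

set_option autoImplicit false

namespace Pool.Agent.H42G

open List Pool.Agent.TF82 Pool.Agent.TFC Pool.Agent.TFB Pool.Agent.TFN Pool.Agent.EG31

universe u

set_option linter.unusedSectionVars false
set_option linter.unusedVariables false

variable {V : Type u} [DecidableEq V]

/-- a simple path from `x` to `y` inside `U` with at least `n` vertices -/
def PathGe (G : SimpleGraph V) (U : Finset V) (x y : V) (n : ℕ) : Prop :=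
  ∃ Q : List V, Seg G Q x y ∧ Q.Nodup ∧ (∀ z ∈ Q, z ∈ U) ∧ n ≤ Q.length

theorem PathGe.rev {G : SimpleGraph V} {U : Finset V} {x y : V} {n : ℕ}
    (h : PathGe G U x y n) : PathGe G U y x n := by
  obtain ⟨Q, h1, h2, h3, h4⟩ := h
  exact ⟨Q.reverse, h1.rev, List.nodup_reverse.2 h2, fun z hz => h3 z (List.mem_reverse.1 hz),
    by simpa using h4⟩

theorem PathGe.mono {G : SimpleGraph V} {U U' : Finset V} {x y : V} {n m : ℕ}
    (h : PathGe G U x y n) (hU : U ⊆ U') (hm : m ≤ n) : PathGe G U' x y m := by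
  obtain ⟨Q, h1, h2, h3, h4⟩ := h
  exact ⟨Q, h1, h2, fun z hz => hU (h3 z hz), hm.trans h4⟩

/-- two paths joined by an edge -/
theorem seg_cat {G : SimpleGraph V} {P Q : List V} {a b b' d : V} (h1 : Seg G P a b)
    (h2 : Seg G Q b' d) (h : G.Adj b b') : Seg G (P ++ Q) a d := by
  obtain ⟨P0, rfl⟩ := snoc h1
  obtain ⟨Q0, rfl⟩ := cons h2
  have h3 : Seg G (b :: b' :: Q0) b d := by
    refine ⟨?_, by simp, ?_⟩
    · rw [List.isChain_cons_cons]
      exact ⟨h, h2.ch⟩
    · rw [List.getLast?_cons_cons]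
      exact h2.lt
  simpa using gl h1 h3

theorem PathGe.cat {G : SimpleGraph V} {A B U : Finset V} {a b b' d : V} {m n : ℕ}
    (h1 : PathGe G A a b m) (h2 : PathGe G B b' d n) (hAB : Disjoint A B) (hA : A ⊆ U)
    (hB : B ⊆ U) (h : G.Adj b b') : PathGe G U a d (m + n) := by
  obtain ⟨P, p1, p2, p3, p4⟩ := h1
  obtain ⟨Q, q1, q2, q3, q4⟩ := h2
  refine ⟨P ++ Q, seg_cat p1 q1 h, ?_, ?_, by rw [List.length_append]; omega⟩
  · rw [List.nodup_append]
    refine ⟨p2, q2, ?_⟩
    rintro z hz w hw rfl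
    exact Finset.disjoint_left.1 hAB (p3 z hz) (q3 z hw)
  · intro z hz
    rcases List.mem_append.1 hz with hz | hz
    · exact hA (p3 z hz)
    · exact hB (q3 z hz)

/-- two paths that share exactly one vertex `z` (the end of the first, the start of the second) -/
theorem PathGe.glue {G : SimpleGraph V} {A B U : Finset V} {a z d : V} {m n : ℕ}
    (h1 : PathGe G A a z m) (h2 : PathGe G B z d n) (hAB : ∀ w ∈ A, w ∈ B → w = z) (hA : A ⊆ U)
    (hB : B ⊆ U) : PathGe G U a d (m + n - 1) := by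
  obtain ⟨P, p1, p2, p3, p4⟩ := h1
  obtain ⟨Q, q1, q2, q3, q4⟩ := h2
  obtain ⟨P0, rfl⟩ := snoc p1
  obtain ⟨Q0, rfl⟩ := cons q1
  refine ⟨P0 ++ z :: Q0, gl p1 q1, ?_, ?_, ?_⟩
  · rw [List.nodup_append]
    refine ⟨(List.nodup_append.1 p2).1, q2, ?_⟩
    rintro w hw w' hw' rfl
    have := hAB w (p3 w (by simp [hw])) (q3 w hw')
    subst this
    exact (List.nodup_append.1 p2).2.2 w hw w (by simp) rfl
  · intro w hw
    rcases List.mem_append.1 hw with hw | hw
    · exact hA (p3 w (by simp [hw]))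
    · exact hB (q3 w hw)
  · simp only [List.length_append, List.length_cons, List.length_nil] at p4 q4 ⊢
    omega

theorem PathGe.single {G : SimpleGraph V} {U : Finset V} {x : V} (hx : x ∈ U) :
    PathGe G U x x 1 :=
  ⟨[x], ⟨by simp, by simp, by simp⟩, by simp, by simpa using hx, by simp⟩

/-- reachable vertices are joined by a path -/
theorem reach_path {G : SimpleGraph V} {U : Finset V} {x y : V} (h : Reach G U x y)
    (hx : x ∈ U) : PathGe G U x y 1 := by
  obtain ⟨R, r, h1, h2, h3, h4, -⟩ := hit (T := fun z => z = y) h rfl hx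
  subst h4
  obtain ⟨R1, rfl⟩ := cons h1
  exact ⟨_, h1, h2, h3, by simp⟩

/-- the longer arc of a cycle between two of its vertices -/
theorem long_arc {G : SimpleGraph V} {c : List V} (hc : CycL G c) {a b : V} (hac : a ∈ c)
    (hbc : b ∈ c) (hab : a ≠ b) :
    ∃ D : List V, Seg G D a b ∧ D.Nodup ∧ (∀ z ∈ D, z ∈ c) ∧ c.length + 2 ≤ 2 * D.length := by
  classical
  obtain ⟨A, B, hr, -, -⟩ := split_two hc.1 hac hbc hab
  have hc' := hc.of_isRotated hr
  obtain ⟨hn', -, hch, hcl⟩ := hc'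
  have hperm := hr.perm
  have hlen : c.length = A.length + B.length + 2 := by
    rw [hperm.length_eq]
    simp
    omega
  have hcm : ∀ z, z ∈ c ↔ z ∈ (a :: A) ++ (b :: B) := fun z => hperm.mem_iff
  by_cases hA : B.length ≤ A.length
  · have hs : Seg G ((a :: A) ++ b :: B) a ((a :: A ++ b :: B).getLast (by simp)) :=
      ⟨hch, by simp, by rw [List.getLast?_eq_getLast_of_ne_nil]⟩
    refine ⟨a :: (A ++ [b]), by simpa using (sp hs).1, ?_, ?_, by simp; omega⟩
    · refine List.Nodup.sublist ?_ hn'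
      simp only [List.cons_append]
      refine List.Sublist.cons_cons _ (List.Sublist.append_left ?_ _)
      exact List.Sublist.cons_cons _ (List.nil_sublist _)
    · intro z hz
      refine (hcm z).2 ?_
      simp only [List.mem_cons, List.mem_append, List.not_mem_nil, or_false] at hz ⊢
      rcases hz with rfl | hz | rfl <;> simp [*]
  · have hcyc : CycL G ((b :: B) ++ (a :: A)) := CycL.rot ⟨hn', by simp; omega, hch, hcl⟩
    obtain ⟨hn2, -, hch2, -⟩ := hcyc
    have hs : Seg G ((b :: B) ++ a :: A) b ((b :: B ++ a :: A).getLast (by simp)) :=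
      ⟨hch2, by simp, by rw [List.getLast?_eq_getLast_of_ne_nil]⟩
    have hs2 := (sp hs).1.rev
    refine ⟨((b :: B) ++ [a]).reverse, hs2, ?_, ?_, by simp; omega⟩
    · rw [List.nodup_reverse]
      refine List.Nodup.sublist ?_ hn2
      refine List.Sublist.append_left ?_ _
      exact List.Sublist.cons_cons _ (List.nil_sublist _)
    · intro z hz
      rw [List.mem_reverse] at hz
      refine (hcm z).2 ?_
      simp only [List.mem_cons, List.mem_append, List.not_mem_nil, or_false] at hz ⊢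
      rcases hz with (rfl | hz) | rfl <;> simp [*]

theorem long_arc' {G : SimpleGraph V} {c : List V} (hc : CycL G c) {a b : V} (hac : a ∈ c)
    (hbc : b ∈ c) (hab : a ≠ b) {K : ℕ} (hK : 2 * K + 2 ≤ c.length) :
    PathGe G c.toFinset a b (K + 2) := by
  obtain ⟨D, h1, h2, h3, h4⟩ := long_arc hc hac hbc hab
  exact ⟨D, h1, h2, fun z hz => List.mem_toFinset.2 (h3 z hz), by omega⟩

theorem some_arc {G : SimpleGraph V} {c : List V} (hc : CycL G c) {a b : V} (hac : a ∈ c)
    (hbc : b ∈ c) : PathGe G c.toFinset a b 1 := by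
  by_cases hab : a = b
  · subst hab
    exact PathGe.single (List.mem_toFinset.2 hac)
  · obtain ⟨D, h1, h2, h3, h4⟩ := long_arc hc hac hbc hab
    have := hc.2.1
    exact ⟨D, h1, h2, fun z hz => List.mem_toFinset.2 (h3 z hz), by omega⟩

/-- (b): from `v` inside `Z` to `x'`, out of `Z` to `s`, then to `x` outside `Z` -/
theorem path_out {G : SimpleGraph V} {U Z : Finset V} {v x' s x : V} {m : ℕ}
    (h1 : PathGe G Z v x' m) (hZ : Z ⊆ U) (hadj : G.Adj x' s) (hs : s ∈ U \ Z)
    (hr : Reach G (U \ Z) s x) : PathGe G U v x (m + 1) :=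
  h1.cat (reach_path hr hs) Finset.disjoint_sdiff hZ Finset.sdiff_subset hadj

/-- (a): from `v` in `Z` through the cycle to `v'` in `Z'` -/
theorem path_two {G : SimpleGraph V} {U Z Z' : Finset V} {c : List V} (hc : CycL G c)
    (hcU : ∀ z ∈ c, z ∈ U) (hZ : Z ⊆ U) (hZ' : Z' ⊆ U) (hZc : ∀ z ∈ Z, z ∉ c)
    (hZc' : ∀ z ∈ Z', z ∉ c) (hd : Disjoint Z Z') {v x s s' x' v' : V} {m n : ℕ}
    (h1 : PathGe G Z v x m) (h2 : PathGe G Z' v' x' n) (hs : s ∈ c) (hs' : s' ∈ c)
    (ha : G.Adj x s) (ha' : G.Adj x' s') : PathGe G U v v' (m + n + 1) := by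
  have hdc : Disjoint Z c.toFinset :=
    Finset.disjoint_left.2 fun z hz hz' => hZc z hz (List.mem_toFinset.1 hz')
  have hdc' : Disjoint c.toFinset Z' :=
    Finset.disjoint_left.2 fun z hz hz' => hZc' z hz' (List.mem_toFinset.1 hz)
  have h3 : PathGe G (c.toFinset ∪ Z') s v' (1 + n) :=
    (some_arc hc hs hs').cat h2.rev hdc' Finset.subset_union_left Finset.subset_union_right
      ha'.symm
  have h4 := h1.cat h3 (U := U) (Finset.disjoint_union_right.2 ⟨hdc, hd⟩) hZ
    (Finset.union_subset (fun z hz => hcU z (List.mem_toFinset.1 hz)) hZ') ha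
  exact h4.mono (Finset.Subset.refl _) (by omega)

/-- (a): from `v` in `Z` to a hub `s ≠ p`, then along the longer arc to `p` -/
theorem path_arc {G : SimpleGraph V} {U Z : Finset V} {c : List V} (hc : CycL G c)
    (hcU : ∀ z ∈ c, z ∈ U) (hZ : Z ⊆ U) (hZc : ∀ z ∈ Z, z ∉ c) {K : ℕ}
    (hK : 2 * K + 2 ≤ c.length) {v x s p : V} {m : ℕ} (h1 : PathGe G Z v x m) (hs : s ∈ c)
    (hp : p ∈ c) (hsp : s ≠ p) (ha : G.Adj x s) : PathGe G U v p (m + (K + 2)) := by
  have hdc : Disjoint Z c.toFinset :=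
    Finset.disjoint_left.2 fun z hz hz' => hZc z hz (List.mem_toFinset.1 hz')
  exact h1.cat (long_arc' hc hs hp hsp hK) hdc hZ (fun z hz => hcU z (List.mem_toFinset.1 hz)) ha

/-- FAN: two disjoint paths to a cycle and its longer arc -/
theorem fan {G : SimpleGraph V} {U : Finset V} (hU : Conn2 G U) {c : List V}
    (hc : CycL G c) (hcU : ∀ z ∈ c, z ∈ U) {x y : V} (hx : x ∈ U) (hy : y ∈ U) (hxy : x ≠ y) :
    ∃ Q : List V, Seg G Q x y ∧ Q.Nodup ∧ (∀ z ∈ Q, z ∈ U) ∧ c.length + 2 ≤ 2 * Q.length := by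
  classical
  have hC2 : 2 ≤ c.toFinset.card := by
    rw [List.toFinset_card_of_nodup hc.1]
    have := hc.2.1
    omega
  obtain ⟨P, Q, a, b, hP, hQ, hn, hin, ha, hb, hPC, hQC⟩ := two_paths hU
    (fun z hz => hcU z (List.mem_toFinset.1 hz)) hC2 hx hy hxy
  have haP : a ∈ P := List.mem_of_getLast? hP.lt
  have hbQ : b ∈ Q := List.mem_of_getLast? hQ.lt
  rw [List.nodup_append] at hn
  have hab : a ≠ b := fun h => hn.2.2 a haP b hbQ h
  obtain ⟨D, d1, d2, d3, d4⟩ := long_arc hc (List.mem_toFinset.1 ha) (List.mem_toFinset.1 hb) hab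
  have g1 : PathGe G P.toFinset x a 1 := by
    obtain ⟨P1, hP1⟩ := cons hP
    exact ⟨P, hP, hn.1, fun z hz => List.mem_toFinset.2 hz, by rw [hP1]; simp⟩
  have g2 : PathGe G c.toFinset a b D.length :=
    ⟨D, d1, d2, fun z hz => List.mem_toFinset.2 (d3 z hz), le_rfl⟩
  have g3 : PathGe G Q.toFinset b y 1 := by
    obtain ⟨Q1, hQ1⟩ := cons hQ
    refine ⟨Q.reverse, hQ.rev, List.nodup_reverse.2 hn.2.1,
      fun z hz => List.mem_toFinset.2 (List.mem_reverse.1 hz), ?_⟩
    rw [List.length_reverse, hQ1]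
    simp
  have g4 : PathGe G (P.toFinset ∪ c.toFinset) x b (1 + D.length - 1) := by
    refine g1.glue g2 ?_ Finset.subset_union_left Finset.subset_union_right
    intro w hw hwc
    exact hPC w (List.mem_toFinset.1 hw) hwc
  have g5 : PathGe G U x y ((1 + D.length - 1) + 1 - 1) := by
    refine g4.glue g3 ?_ ?_ ?_
    · intro w hw hwQ
      rw [List.mem_toFinset] at hwQ
      rcases Finset.mem_union.1 hw with hw | hw
      · exact absurd rfl (hn.2.2 w (List.mem_toFinset.1 hw) w hwQ)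
      · exact hQC w hwQ hw
    · intro z hz
      rcases Finset.mem_union.1 hz with hz | hz
      · exact hin z (List.mem_append_left _ (List.mem_toFinset.1 hz))
      · exact hcU z (List.mem_toFinset.1 hz)
    · intro z hz
      exact hin z (List.mem_append_right _ (List.mem_toFinset.1 hz))
  obtain ⟨R, r1, r2, r3, r4⟩ := g5
  exact ⟨R, r1, r2, r3, by omega⟩

end Pool.Agent.H42G
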