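import Pool.Agent.EG31.Gallai

/-!
# Two disjoint paths to a set, and long paths from a long cycle in a 2-connected graph
-/

set_option autoImplicit false

namespace Pool.Agent.H42G

open List Pool.Agent.TF82 Pool.Agent.TFC Pool.Agent.TFB Pool.Agent.TFN Pool.Agent.EG31

universe u

set_option linter.unusedSectionVars false
set_option linter.unusedVariables false

variable {V : Type u} [DecidableEq V]

theorem sp {G : SimpleGraph V} {A B : List V} {r s t : V} (h : Seg G (A ++ r :: B) s t) :
    Seg G (A ++ [r]) s r ∧ Seg G (r :: B) r t := by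
  obtain ⟨hc, hh, hl⟩ := h
  rw [List.isChain_append] at hc
  obtain ⟨h1, h2, h3⟩ := hc
  refine ⟨⟨?_, ?_, by simp⟩, ⟨h2, by simp, ?_⟩⟩
  · rw [List.isChain_append]
    refine ⟨h1, by simp, ?_⟩
    intro a ha b hb
    simp at hb
    subst hb
    exact h3 a ha _ (by simp)
  · rcases A with _ | ⟨a, A⟩
    · simpa using hh
    · simpa using hh
  · rw [List.getLast?_append] at hl
    rcases B with _ | ⟨b, B⟩
    · simpa using hl
    · simpa [List.getLast?_cons_cons] using hl

theorem gl {G : SimpleGraph V} {A B : List V} {r s t : V} (h1 : Seg G (A ++ [r]) s r)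
    (h2 : Seg G (r :: B) r t) : Seg G (A ++ r :: B) s t := by
  obtain ⟨c1, d1, l1⟩ := h1
  obtain ⟨c2, d2, l2⟩ := h2
  refine ⟨?_, ?_, ?_⟩
  · rw [List.isChain_append] at c1 ⊢
    refine ⟨c1.1, c2, ?_⟩
    intro a ha b hb
    simp at hb
    subst hb
    exact c1.2.2 a ha _ (by simp)
  · rcases A with _ | ⟨a, A⟩
    · simpa using d1
    · simpa using d1
  · rw [List.getLast?_append, l2]
    rfl

theorem snoc {G : SimpleGraph V} {R : List V} {a r : V} (h : Seg G R a r) :
    ∃ R0, R = R0 ++ [r] := by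
  have hne : R ≠ [] := by
    rintro rfl
    have := h.hd
    simp at this
  refine ⟨R.dropLast, ?_⟩
  have h1 := h.lt
  rw [List.getLast?_eq_getLast_of_ne_nil hne] at h1
  have h2 : R.getLast hne = r := by simpa using h1
  rw [← h2, List.dropLast_append_getLast]

theorem cons {G : SimpleGraph V} {R : List V} {a r : V} (h : Seg G R a r) :
    ∃ R1, R = a :: R1 := by
  rcases R with _ | ⟨b, R⟩
  · have := h.hd
    simp at this
  · have := h.hd
    simp at this
    exact ⟨R, by rw [this]⟩

/-- first hit of a set of vertices on the way to `x` -/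
theorem hit {G : SimpleGraph V} {U : Finset V} {T : V → Prop} {a x : V} (h : Reach G U a x)
    (hx : T x) :
    a ∈ U → ∃ (R : List V) (r : V), Seg G R a r ∧ R.Nodup ∧ (∀ z ∈ R, z ∈ U) ∧ T r ∧
      ∀ z ∈ R, T z → z = r := by
  classical
  refine Relation.ReflTransGen.head_induction_on h ?_ ?_
  · intro hS
    exact ⟨[x], x, ⟨by simp, by simp, by simp⟩, by simp, by simpa using hS, hx, by simp⟩
  · intro a a' haa' ha' ih hS
    by_cases hT : T a
    · exact ⟨[a], a, ⟨by simp, by simp, by simp⟩, by simp, by simpa using hS, hT, by simp⟩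
    obtain ⟨R, r, hR, hn, hRS, hr, hRT⟩ := ih haa'.2.1
    by_cases ha : a ∈ R
    · obtain ⟨s1, s2, rfl⟩ := List.append_of_mem ha
      refine ⟨a :: s2, r, (sp hR).2, (List.nodup_append.1 hn).2.1, ?_, hr, ?_⟩
      · intro z hz
        exact hRS z (List.mem_append_right _ hz)
      · intro z hz
        exact hRT z (List.mem_append_right _ hz)
    · obtain ⟨R1, rfl⟩ := cons hR
      refine ⟨a :: a' :: R1, r, ⟨?_, by simp, ?_⟩, List.nodup_cons.2 ⟨ha, hn⟩, ?_, hr, ?_⟩
      · rw [List.isChain_cons_cons]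
        exact ⟨haa'.2.2, hR.ch⟩
      · rw [List.getLast?_cons_cons]
        exact hR.lt
      · intro z hz
        rcases List.mem_cons.1 hz with rfl | hz
        · exact hS
        · exact hRS z hz
      · intro z hz hTz
        rcases List.mem_cons.1 hz with rfl | hz
        · exact absurd hTz hT
        · exact hRT z hz hTz

/-- the last element of a list with a property -/
theorem last_split (p : V → Prop) : ∀ l : List V, (∃ z ∈ l, p z) →
    ∃ A u B, l = A ++ u :: B ∧ p u ∧ ∀ z ∈ B, ¬ p z := by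
  classical
  intro l
  induction l with
  | nil => rintro ⟨z, hz, _⟩; simp at hz
  | cons a l ih =>
    intro h
    by_cases h1 : ∃ z ∈ l, p z
    · obtain ⟨A, u, B, rfl, h2, h3⟩ := ih h1
      exact ⟨a :: A, u, B, rfl, h2, h3⟩
    · push Not at h1
      obtain ⟨z, hz, hpz⟩ := h
      rcases List.mem_cons.1 hz with rfl | hz
      · exact ⟨[], z, l, rfl, hpz, h1⟩
      · exact absurd hpz (h1 z hz)

/-- a path from a set `A` to a set `T` with only its first vertex in `A` and its last in `T` -/
theorem bridge {G : SimpleGraph V} {U : Finset V} {A T : V → Prop} {a x : V}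
    (h : Reach G U a x) (haU : a ∈ U) (ha : A a) (hx : T x) (hd : ∀ z, A z → ¬ T z) :
    ∃ (u r : V) (E : List V), Seg G (u :: (E ++ [r])) u r ∧ (u :: (E ++ [r])).Nodup ∧
      (∀ z ∈ u :: (E ++ [r]), z ∈ U) ∧ A u ∧ T r ∧ (∀ z ∈ E, ¬ A z ∧ ¬ T z) := by
  obtain ⟨R, r, hR, hn, hU, hr, hT⟩ := hit h hx haU
  obtain ⟨R1, rfl⟩ := cons hR
  obtain ⟨P, u, B, e, hu, hB⟩ := last_split A (a :: R1) ⟨a, by simp, ha⟩
  rw [e] at hR hn hU hT
  have hs := (sp hR).2
  obtain ⟨B0, hB0⟩ := snoc hs
  rcases B0 with _ | ⟨b0, E⟩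
  · have e1 : u = r := by simpa using congrArg List.head? hB0
    exact absurd hr (hd _ (e1 ▸ hu))
  have e2 : b0 = u := by simpa using (congrArg List.head? hB0).symm
  subst e2
  rw [List.cons_append] at hB0
  have e3 : B = E ++ [r] := by simpa using hB0
  subst e3
  have hn' : (b0 :: (E ++ [r])).Nodup := (List.nodup_append.1 hn).2.1
  refine ⟨b0, r, E, hs, hn', fun z hz => hU z (List.mem_append_right _ hz), hu, hr, ?_⟩
  intro z hz
  refine ⟨hB z (by simp [hz]), fun hTz => ?_⟩
  have := hT z (by simp [hz]) hTz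
  subst this
  rw [List.nodup_cons, List.nodup_append] at hn'
  exact hn'.2.2.2 z hz z (by simp) rfl

/-- a `Y`: paths from `x` and `y` to `q`, a tail from `q` to `a ∈ C` -/
structure St (G : SimpleGraph V) (U C : Finset V) (x y q a : V) (X Y R : List V) : Prop where
  sx : Seg G (X ++ [q]) x q
  sy : Seg G (Y ++ [q]) y q
  st : Seg G (q :: R) q a
  nd : (X ++ (Y ++ q :: R)).Nodup
  inU : ∀ z ∈ X ++ (Y ++ q :: R), z ∈ U
  inC : ∀ z ∈ X ++ (Y ++ q :: R), z ∈ C → z = a
  aC : a ∈ C

theorem St.swap {G : SimpleGraph V} {U C : Finset V} {x y q a : V} {X Y R : List V}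
    (h : St G U C x y q a X Y R) : St G U C y x q a Y X R := by
  have hp : (Y ++ (X ++ q :: R)) ~ (X ++ (Y ++ q :: R)) := by
    rw [← List.append_assoc, ← List.append_assoc]
    exact List.Perm.append_right _ List.perm_append_comm
  exact ⟨h.sy, h.sx, h.st, hp.nodup_iff.2 h.nd, fun z hz => h.inU z (hp.mem_iff.1 hz),
    fun z hz => h.inC z (hp.mem_iff.1 hz), h.aC⟩

/-- the conclusion -/
def Two (G : SimpleGraph V) (U C : Finset V) (x y : V) : Prop :=
  ∃ (P Q : List V) (a b : V), Seg G P x a ∧ Seg G Q y b ∧ (P ++ Q).Nodup ∧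
    (∀ z ∈ P ++ Q, z ∈ U) ∧ a ∈ C ∧ b ∈ C ∧ (∀ z ∈ P, z ∈ C → z = a) ∧
    (∀ z ∈ Q, z ∈ C → z = b)

theorem Two.swap {G : SimpleGraph V} {U C : Finset V} {x y : V} (h : Two G U C x y) :
    Two G U C y x := by
  obtain ⟨P, Q, a, b, h1, h2, h3, h4, h5, h6, h7, h8⟩ := h
  exact ⟨Q, P, b, a, h2, h1, List.perm_append_comm.nodup_iff.2 h3,
    fun z hz => h4 z (List.perm_append_comm.mem_iff.1 hz), h6, h5, h8, h7⟩

/-- one augmentation: the new path starts on `X` -/
theorem St.aug {G : SimpleGraph V} {U C : Finset V} {x y q a : V} {X Y R : List V}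
    (h : St G U C x y q a X Y R) {u r : V} {E : List V} (hs : Seg G (u :: (E ++ [r])) u r)
    (hn : (u :: (E ++ [r])).Nodup) (hU : ∀ z ∈ u :: (E ++ [r]), z ∈ U.erase q) (hu : u ∈ X)
    (hr : r ∈ R ∨ r ∈ C)
    (hE : ∀ z ∈ E, z ∉ X ∧ z ∉ Y ∧ z ∉ R ∧ z ∉ C) (hrX : r ∉ X) (hrY : r ∉ Y) :
    Two G U C x y ∨ ∃ q' X' Y' R', R'.length < R.length ∧ St G U C x y q' a X' Y' R' := by
  obtain ⟨X1, X2, rfl⟩ := List.append_of_mem hu
  have hrq : r ≠ q := (Finset.mem_erase.1 (hU r (by simp))).1
  have hEq : ∀ z ∈ E, z ≠ q := fun z hz => (Finset.mem_erase.1 (hU z (by simp [hz]))).1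
  have hEU : ∀ z ∈ E, z ∈ U := fun z hz => (Finset.mem_erase.1 (hU z (by simp [hz]))).2
  have hrU : r ∈ U := (Finset.mem_erase.1 (hU r (by simp))).2
  have hsx : Seg G (X1 ++ u :: (X2 ++ [q])) x q := by simpa using h.sx
  have hP : Seg G (X1 ++ u :: (E ++ [r])) x r := gl (sp hsx).1 hs
  have hnd := h.nd
  have hinU := h.inU
  have hinC := h.inC
  have hEn : (E ++ [r]).Nodup := (List.nodup_cons.1 hn).2
  have huE : u ∉ E ++ [r] := (List.nodup_cons.1 hn).1
  by_cases hrR : r ∈ R
  · right
    obtain ⟨R1, R2, rfl⟩ := List.append_of_mem hrR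
    have hst : Seg G ((q :: R1) ++ r :: R2) q a := by simpa using h.st
    refine ⟨r, X1 ++ u :: E, Y ++ q :: R1, R2, by simp; omega, ?_, ?_, (sp hst).2, ?_, ?_, ?_,
      h.aC⟩
    · simpa using hP
    · have := gl h.sy (sp hst).1
      simpa using this
    · have e1 : (X1 ++ u :: E) ++ ((Y ++ q :: R1) ++ r :: R2) ~
          E ++ (X1 ++ u :: (Y ++ (q :: (R1 ++ r :: R2)))) := by
        have : (X1 ++ u :: E) ++ ((Y ++ q :: R1) ++ r :: R2) =
            (X1 ++ [u]) ++ (E ++ (Y ++ (q :: (R1 ++ r :: R2)))) := by simp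
        rw [this]
        have e2 : E ++ (X1 ++ u :: (Y ++ (q :: (R1 ++ r :: R2)))) =
            E ++ ((X1 ++ [u]) ++ (Y ++ (q :: (R1 ++ r :: R2)))) := by simp
        rw [e2]
        exact List.perm_append_comm_assoc _ _ _
      rw [e1.nodup_iff, List.nodup_append]
      refine ⟨(List.nodup_append.1 hEn).1, ?_, ?_⟩
      · refine List.Nodup.sublist ?_ hnd
        simp only [List.append_assoc, List.cons_append]
        refine List.Sublist.append_left ?_ _
        exact List.Sublist.cons_cons _ (List.sublist_append_right _ _)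
      · intro z hz w hw hzw
        subst hzw
        obtain ⟨k1, k2, k3, -⟩ := hE z hz
        simp only [List.mem_append, List.mem_cons] at hw k1 k3
        rcases hw with hw | rfl | hw | rfl | hw
        · exact k1 (Or.inl hw)
        · exact k1 (Or.inr (Or.inl rfl))
        · exact k2 hw
        · exact hEq z hz rfl
        · exact k3 hw
    · intro z hz
      simp only [List.mem_append, List.mem_cons] at hz
      rcases hz with (hz | rfl | hz) | ((hz | rfl | hz) | rfl | hz)
      · exact hinU z (by simp [hz])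
      · exact hinU z (by simp)
      · exact hEU z hz
      · exact hinU z (by simp [hz])
      · exact hinU z (by simp)
      · exact hinU z (by simp [hz])
      · exact hinU z (by simp)
      · exact hinU z (by simp [hz])
    · intro z hz hzC
      simp only [List.mem_append, List.mem_cons] at hz
      rcases hz with (hz | rfl | hz) | ((hz | rfl | hz) | rfl | hz)
      · exact hinC z (by simp [hz]) hzC
      · exact hinC z (by simp) hzC
      · exact absurd hzC (hE z hz).2.2.2
      · exact hinC z (by simp [hz]) hzC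
      · exact hinC z (by simp) hzC
      · exact hinC z (by simp [hz]) hzC
      · exact hinC z (by simp) hzC
      · exact hinC z (by simp [hz]) hzC
  · left
    have hrC : r ∈ C := hr.resolve_left hrR
    refine ⟨X1 ++ u :: (E ++ [r]), Y ++ q :: R, r, a, hP, gl h.sy h.st, ?_, ?_, hrC, h.aC,
      ?_, ?_⟩
    · have e1 : (X1 ++ u :: (E ++ [r])) ++ (Y ++ q :: R) ~
          (E ++ [r]) ++ (X1 ++ u :: (Y ++ q :: R)) := by
        have : (X1 ++ u :: (E ++ [r])) ++ (Y ++ q :: R) =
            (X1 ++ [u]) ++ ((E ++ [r]) ++ (Y ++ q :: R)) := by simp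
        rw [this]
        have e2 : (E ++ [r]) ++ (X1 ++ u :: (Y ++ q :: R)) =
            (E ++ [r]) ++ ((X1 ++ [u]) ++ (Y ++ q :: R)) := by simp
        rw [e2]
        exact List.perm_append_comm_assoc _ _ _
      rw [e1.nodup_iff, List.nodup_append]
      refine ⟨hEn, ?_, ?_⟩
      · refine List.Nodup.sublist ?_ hnd
        simp only [List.append_assoc, List.cons_append]
        refine List.Sublist.append_left ?_ _
        exact List.Sublist.cons_cons _ (List.sublist_append_right _ _)
      · intro z hz w hw hzw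
        subst hzw
        simp only [List.mem_append, List.mem_cons, List.not_mem_nil, or_false] at hz hw hrX
        rcases hz with hz | rfl
        · obtain ⟨k1, k2, k3, -⟩ := hE z hz
          simp only [List.mem_append, List.mem_cons] at k1
          rcases hw with hw | rfl | hw | rfl | hw
          · exact k1 (Or.inl hw)
          · exact k1 (Or.inr (Or.inl rfl))
          · exact k2 hw
          · exact hEq z hz rfl
          · exact k3 hw
        · rcases hw with hw | rfl | hw | rfl | hw
          · exact hrX (Or.inl hw)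
          · exact hrX (Or.inr (Or.inl rfl))
          · exact hrY hw
          · exact hrq rfl
          · exact hrR hw
    · intro z hz
      simp only [List.mem_append, List.mem_cons, List.not_mem_nil, or_false] at hz
      rcases hz with (hz | rfl | hz | rfl) | (hz | rfl | hz)
      · exact hinU z (by simp [hz])
      · exact hinU z (by simp)
      · exact hEU z hz
      · exact hrU
      · exact hinU z (by simp [hz])
      · exact hinU z (by simp)
      · exact hinU z (by simp [hz])
    · have haq : ∀ z, z ∈ X1 ++ u :: X2 → z ∈ C → False := by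
        intro z hz hzC
        have e := hinC z (List.mem_append_left _ hz) hzC
        subst e
        have hza : z ∈ q :: R := List.mem_of_getLast? h.st.lt
        exact (List.nodup_append.1 hnd).2.2 z hz z (List.mem_append_right _ hza) rfl
      intro z hz hzC
      simp only [List.mem_append, List.mem_cons, List.not_mem_nil, or_false] at hz
      rcases hz with hz | rfl | hz | rfl
      · exact (haq z (by simp [hz]) hzC).elim
      · exact (haq z (by simp) hzC).elim
      · exact absurd hzC (hE z hz).2.2.2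
      · rfl
    · intro z hz hzC
      exact hinC z (List.mem_append_right _ hz) hzC

theorem St.two {G : SimpleGraph V} {U C : Finset V} (hU : Conn2 G U) (hCU : C ⊆ U)
    (hC : 2 ≤ C.card) {x y : V} (hxy : x ≠ y) :
    ∀ (n : ℕ) (q a : V) (X Y R : List V), R.length ≤ n → St G U C x y q a X Y R →
      Two G U C x y := by
  classical
  intro n
  induction n using Nat.strong_induction_on with
  | _ n ih =>
    intro q a X Y R hR h
    have hq : q ∈ U := h.inU q (by simp)
    -- a vertex of `X ∪ Y`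
    obtain ⟨s, hs⟩ : ∃ s, s ∈ X ∨ s ∈ Y := by
      rcases X with _ | ⟨x0, X⟩
      · rcases Y with _ | ⟨y0, Y⟩
        · have e1 := h.sx.hd
          have e2 := h.sy.hd
          simp at e1 e2
          exact absurd (e1.symm.trans e2) hxy
        · exact ⟨y0, Or.inr (by simp)⟩
      · exact ⟨x0, Or.inl (by simp)⟩
    have hsn : s ≠ q := by
      rintro rfl
      have hnd := h.nd
      rw [List.nodup_append] at hnd
      rcases hs with hs | hs
      · exact hnd.2.2 s hs s (by simp) rfl
      · exact (List.nodup_append.1 hnd.2.1).2.2 s hs s (by simp) rfl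
    have hsU : s ∈ U := by
      rcases hs with hs | hs
      · exact h.inU s (by simp [hs])
      · exact h.inU s (by simp [hs])
    -- a vertex of `C` different from `q`
    obtain ⟨c, hc, hcq⟩ : ∃ c ∈ C, c ≠ q := by
      by_contra hcon
      push Not at hcon
      have : C ⊆ {q} := fun z hz => Finset.mem_singleton.2 (hcon z hz)
      have := Finset.card_le_card this
      simp at this
      omega
    have hXC : ∀ z, (z ∈ X ∨ z ∈ Y) → ¬ (z ∈ R ∨ (z ∈ C ∧ z ≠ q)) := by
      intro z hz hcon
      have hnd := h.nd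
      rw [List.nodup_append] at hnd
      have hza : ∀ z', z' ∈ q :: R → z ≠ z' := by
        intro z' hz'
        rcases hz with hz | hz
        · exact hnd.2.2 z hz z' (List.mem_append_right _ hz')
        · exact (List.nodup_append.1 hnd.2.1).2.2 z hz z' hz'
      rcases hcon with hcon | hcon
      · exact hza z (List.mem_cons_of_mem _ hcon) rfl
      · have e := h.inC z (by rcases hz with hz | hz <;> simp [hz]) hcon.1
        exact hza a (List.mem_of_getLast? h.st.lt) e
    have hreach : Reach G (U.erase q) s c := hU q hq s (Finset.mem_erase.2 ⟨hsn, hsU⟩) c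
      (Finset.mem_erase.2 ⟨hcq, hCU hc⟩)
    obtain ⟨u, r, E, h1, h2, h3, h4, h5, h6⟩ := bridge (A := fun z => z ∈ X ∨ z ∈ Y)
      (T := fun z => z ∈ R ∨ (z ∈ C ∧ z ≠ q)) hreach (Finset.mem_erase.2 ⟨hsn, hsU⟩) hs
      (Or.inr ⟨hc, hcq⟩) hXC
    have hE : ∀ z ∈ E, z ∉ X ∧ z ∉ Y ∧ z ∉ R ∧ z ∉ C := by
      intro z hz
      obtain ⟨k1, k2⟩ := h6 z hz
      have hzq : z ≠ q := (Finset.mem_erase.1 (h3 z (by simp [hz]))).1
      exact ⟨fun h => k1 (Or.inl h), fun h => k1 (Or.inr h), fun h => k2 (Or.inl h),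
        fun h => k2 (Or.inr ⟨h, hzq⟩)⟩
    have hr1 : r ∉ X := fun hx => hXC r (Or.inl hx) h5
    have hr2 : r ∉ Y := fun hx => hXC r (Or.inr hx) h5
    have hr : r ∈ R ∨ r ∈ C := h5.imp_right And.left
    rcases h4 with h4 | h4
    · rcases h.aug h1 h2 h3 h4 hr hE hr1 hr2 with hT | ⟨q', X', Y', R', hlt, hS⟩
      · exact hT
      · exact ih R'.length (by omega) q' a X' Y' R' le_rfl hS
    · rcases h.swap.aug h1 h2 h3 h4 hr (fun z hz => ⟨(hE z hz).2.1, (hE z hz).1, (hE z hz).2.2⟩)
        hr2 hr1 with hT | ⟨q', X', Y', R', hlt, hS⟩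
      · exact hT.swap
      · exact ih R'.length (by omega) q' a Y' X' R' le_rfl hS.swap

/-- two disjoint paths from two vertices to a set with at least two elements -/
theorem two_paths {G : SimpleGraph V} {U C : Finset V} (hU : Conn2 G U) (hCU : C ⊆ U)
    (hC : 2 ≤ C.card) {x y : V} (hx : x ∈ U) (hy : y ∈ U) (hxy : x ≠ y) : Two G U C x y := by
  classical
  obtain ⟨c, hc, hcy⟩ : ∃ c ∈ C, c ≠ y := by
    by_contra hcon
    push Not at hcon
    have : C ⊆ {y} := fun z hz => Finset.mem_singleton.2 (hcon z hz)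
    have := Finset.card_le_card this
    simp at this
    omega
  obtain ⟨P, a, hP, hPn, hPU, haC, hPC⟩ := hit (T := fun z => z ∈ C)
    (hU y hy x (Finset.mem_erase.2 ⟨hxy, hx⟩) c (Finset.mem_erase.2 ⟨hcy, hCU hc⟩)) hc
    (Finset.mem_erase.2 ⟨hxy, hx⟩)
  -- from `y` to `P ∪ C`
  have hyP : y ∉ P := fun h => (Finset.mem_erase.1 (hPU y h)).1 rfl
  have hPU' : ∀ z ∈ P, z ∈ U := fun z hz => (Finset.mem_erase.1 (hPU z hz)).2
  by_cases hyC : y ∈ C
  · refine ⟨P, [y], a, y, hP, ⟨by simp, by simp, by simp⟩, ?_, ?_, haC, hyC, hPC, by simp⟩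
    · rw [List.nodup_append]
      refine ⟨hPn, by simp, ?_⟩
      rintro z hz w hw rfl
      simp at hw
      exact hyP (hw ▸ hz)
    · intro z hz
      rcases List.mem_append.1 hz with hz | hz
      · exact hPU' z hz
      · simp at hz
        exact hz ▸ hy
  obtain ⟨c1, hc1, c2, hc2, h12⟩ := Finset.one_lt_card.1 (show 1 < C.card by omega)
  have hy1 : y ≠ c1 := fun h => hyC (h ▸ hc1)
  have hreach : Reach G U y c2 := by
    have h := hU c1 (hCU hc1) y (Finset.mem_erase.2 ⟨hy1, hy⟩) c2
      (Finset.mem_erase.2 ⟨h12.symm, hCU hc2⟩)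
    unfold Reach at h ⊢
    clear hc2 h12
    induction h with
    | refl => exact Relation.ReflTransGen.refl
    | tail _ hbc ih =>
      exact Relation.ReflTransGen.tail ih ⟨Finset.mem_of_mem_erase hbc.1,
        Finset.mem_of_mem_erase hbc.2.1, hbc.2.2⟩
  obtain ⟨Q, r, hQ, hQn, hQU, hr, hQT⟩ := hit (T := fun z => z ∈ P ∨ z ∈ C) hreach
    (Or.inr hc2) hy
  by_cases hrP : r ∈ P
  · obtain ⟨X, R, rfl⟩ := List.append_of_mem hrP
    obtain ⟨Y, rfl⟩ := snoc hQ
    have hYP : ∀ z ∈ Y, z ∉ X ++ r :: R ∧ z ∉ C := by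
      intro z hz
      have hzr : z ≠ r := by
        rintro rfl
        exact (List.nodup_append.1 hQn).2.2 z hz z (by simp) rfl
      exact ⟨fun h => hzr (hQT z (by simp [hz]) (Or.inl h)),
        fun h => hzr (hQT z (by simp [hz]) (Or.inr h))⟩
    refine St.two hU hCU hC hxy R.length r a X Y R le_rfl
      ⟨(sp hP).1, hQ, (sp hP).2, ?_, ?_, ?_, haC⟩
    · have e1 : X ++ (Y ++ r :: R) ~ Y ++ (X ++ r :: R) := List.perm_append_comm_assoc _ _ _
      rw [e1.nodup_iff, List.nodup_append]
      exact ⟨(List.nodup_append.1 hQn).1, hPn, fun z hz w hw hzw =>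
        (hYP z hz).1 (hzw ▸ hw)⟩
    · intro z hz
      simp only [List.mem_append, List.mem_cons] at hz
      rcases hz with hz | hz | rfl | hz
      · exact hPU' z (by simp [hz])
      · exact hQU z (by simp [hz])
      · exact hPU' z (by simp)
      · exact hPU' z (by simp [hz])
    · intro z hz hzC
      simp only [List.mem_append, List.mem_cons] at hz
      rcases hz with hz | hz | rfl | hz
      · exact hPC z (by simp [hz]) hzC
      · exact absurd hzC (hYP z hz).2
      · exact hPC z (by simp) hzC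
      · exact hPC z (by simp [hz]) hzC
  · refine ⟨P, Q, a, r, hP, hQ, ?_, ?_, haC, hr.resolve_left hrP, hPC, ?_⟩
    · rw [List.nodup_append]
      refine ⟨hPn, hQn, ?_⟩
      rintro z hz w hw rfl
      have := hQT z hw (Or.inl hz)
      exact hrP (this ▸ hz)
    · intro z hz
      rcases List.mem_append.1 hz with hz | hz
      · exact hPU' z hz
      · exact hQU z hz
    · intro z hz hzC
      exact hQT z hz (Or.inr hzC)

/-- a cycle with at least `2 K + 2` vertices in a 2-connected vertex set: any two vertices are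
joined by a path with at least `K + 2` vertices -/
theorem long_cycle_link {G : SimpleGraph V} {U : Finset V} (hU : Conn2 G U) {c : List V}
    (hc : CycL G c) (hcU : ∀ z ∈ c, z ∈ U) {K : ℕ} (hK : 2 * K + 2 ≤ c.length) {x y : V}
    (hx : x ∈ U) (hy : y ∈ U) (hxy : x ≠ y) :
    ∃ Q : List V, Seg G Q x y ∧ Q.Nodup ∧ (∀ z ∈ Q, z ∈ U) ∧ K + 2 ≤ Q.length := by
  classical
  have hC2 : 2 ≤ c.toFinset.card := by
    rw [List.toFinset_card_of_nodup hc.1]
    have := hc.2.1
    omega
  obtain ⟨P, Q, a, b, hP, hQ, hn, hin, ha, hb, hPC, hQC⟩ := two_paths hU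
    (fun z hz => hcU z (List.mem_toFinset.1 hz)) hC2 hx hy hxy
  have hac : a ∈ c := List.mem_toFinset.1 ha
  have hbc : b ∈ c := List.mem_toFinset.1 hb
  have haP : a ∈ P := List.mem_of_getLast? hP.lt
  have hbQ : b ∈ Q := List.mem_of_getLast? hQ.lt
  rw [List.nodup_append] at hn
  have hab : a ≠ b := fun h => hn.2.2 a haP b hbQ h
  obtain ⟨A, B, hr, -, -⟩ := split_two hc.1 hac hbc hab
  have hc' := hc.of_isRotated hr
  obtain ⟨hn', -, hch, hcl⟩ := hc'
  have hperm := hr.perm
  have hlen : c.length = A.length + B.length + 2 := by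
    rw [hperm.length_eq]
    simp
    omega
  obtain ⟨P0, rfl⟩ := snoc hP
  obtain ⟨Q1, hQ1⟩ := cons hQ.rev
  -- an arc between `a` and `b`
  have fin : ∀ D : List V, Seg G (a :: (D ++ [b])) a b → D.Nodup →
      (∀ z ∈ D, z ∈ c ∧ z ≠ a ∧ z ≠ b) → K ≤ D.length →
      ∃ Q : List V, Seg G Q x y ∧ Q.Nodup ∧ (∀ z ∈ Q, z ∈ U) ∧ K + 2 ≤ Q.length := by
    intro D hD hDn hDc hDl
    have hQr : Seg G (b :: Q1) b y := hQ1 ▸ hQ.rev
    have hmQ : ∀ z, z ∈ b :: Q1 ↔ z ∈ Q := by
      intro z
      rw [← hQ1, List.mem_reverse]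
    have hQ1n : (b :: Q1).Nodup := by
      rw [← hQ1, List.nodup_reverse]
      exact hn.2.1
    have h1 : Seg G (P0 ++ a :: (D ++ [b])) x b := gl hP hD
    have h2 : Seg G ((P0 ++ a :: D) ++ b :: Q1) x y := by
      refine gl ?_ hQr
      simpa using h1
    have hDP : ∀ z ∈ D, z ∉ P0 ++ [a] ∧ z ∉ Q := by
      intro z hz
      obtain ⟨k1, k2, k3⟩ := hDc z hz
      exact ⟨fun h => k2 (hPC z h (List.mem_toFinset.2 k1)),
        fun h => k3 (hQC z h (List.mem_toFinset.2 k1))⟩
    refine ⟨(P0 ++ a :: D) ++ b :: Q1, h2, ?_, ?_, ?_⟩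
    · have e : (P0 ++ a :: D) ++ b :: Q1 = (P0 ++ [a]) ++ (D ++ b :: Q1) := by simp
      rw [e, List.nodup_append]
      refine ⟨hn.1, ?_, ?_⟩
      · rw [List.nodup_append]
        refine ⟨hDn, hQ1n, ?_⟩
        rintro z hz w hw rfl
        exact (hDP z hz).2 ((hmQ z).1 hw)
      · rintro z hz w hw rfl
        rcases List.mem_append.1 hw with hw | hw
        · exact (hDP z hw).1 hz
        · exact hn.2.2 z hz z ((hmQ z).1 hw) rfl
    · intro z hz
      rcases List.mem_append.1 hz with hz | hz
      · rcases List.mem_append.1 hz with hz | hz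
        · exact hin z (by simp [hz])
        · rcases List.mem_cons.1 hz with rfl | hz
          · exact hin z (by simp)
          · exact hcU z (hDc z hz).1
      · exact hin z (List.mem_append_right _ ((hmQ z).1 hz))
    · simp only [List.length_append, List.length_cons]
      omega
  have hcm : ∀ z, z ∈ c ↔ z ∈ (a :: A) ++ (b :: B) := fun z => hperm.mem_iff
  by_cases hA : K ≤ A.length
  · have hs : Seg G ((a :: A) ++ b :: B) a ((a :: A ++ b :: B).getLast (by simp)) :=
      ⟨hch, by simp, by rw [List.getLast?_eq_getLast_of_ne_nil]⟩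
    refine fin A (by simpa using (sp hs).1) ?_ ?_ hA
    · exact (List.nodup_cons.1 (List.nodup_append.1 hn').1).2
    · intro z hz
      refine ⟨(hcm z).2 (by simp [hz]), ?_, ?_⟩
      · rintro rfl
        exact (List.nodup_cons.1 (List.nodup_append.1 hn').1).1 hz
      · rintro rfl
        exact (List.nodup_append.1 hn').2.2 z (by simp [hz]) z (by simp) rfl
  · have hcyc : CycL G ((b :: B) ++ (a :: A)) := CycL.rot ⟨hn', by simp; omega, hch, hcl⟩
    obtain ⟨hn2, -, hch2, -⟩ := hcyc
    have hs : Seg G ((b :: B) ++ a :: A) b ((b :: B ++ a :: A).getLast (by simp)) :=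
      ⟨hch2, by simp, by rw [List.getLast?_eq_getLast_of_ne_nil]⟩
    have hs2 := (sp hs).1.rev
    refine fin B.reverse (by simpa using hs2) ?_ ?_ ?_
    · rw [List.nodup_reverse]
      exact (List.nodup_cons.1 (List.nodup_append.1 hn2).1).2
    · intro z hz
      rw [List.mem_reverse] at hz
      refine ⟨(hcm z).2 (by simp [hz]), ?_, ?_⟩
      · rintro rfl
        exact (List.nodup_append.1 hn2).2.2 z (by simp [hz]) z (by simp) rfl
      · rintro rfl
        exact (List.nodup_cons.1 (List.nodup_append.1 hn2).1).1 hz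
    · rw [List.length_reverse]
      omega

end Pool.Agent.H42G
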